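import Mathlib

namespace Pool.Agent.Results.MP_bdb089_mp.No

open Complex MeasureTheory Finset Polynomial
open scoped Real ComplexOrder ComplexConjugate

/-- the position wave function of the Fock state `n` (Hermite function) -/
noncomputable def hf (n : ℕ) (x : ℝ) : ℝ :=
  aeval (√2 * x) (hermite n) * Real.exp (-x ^ 2 / 2) / (√(n.factorial : ℝ) * √(√π))

/-- the Wigner function of the operator `|m><n|` -/
noncomputable def Wmn (m n : ℕ) (x p : ℝ) : ℂ :=
  1 / π * ∫ y : ℝ, (hf m (x + y) * hf n (x - y) : ℝ) * cexp (-2 * I * p * y)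

/-- the Wigner function of the operator with Fock matrix `ρ` -/
noncomputable def Wig (ρ : ℕ → ℕ → ℂ) (x p : ℝ) : ℂ := ∑' m, ∑' n, ρ m n * Wmn m n x p

/-- density operators, given by their matrix in the Fock basis -/
def IsState (ρ : ℕ → ℕ → ℂ) : Prop :=
  (∀ (s : Finset ℕ) (v : ℕ → ℂ), 0 ≤ ∑ m ∈ s, ∑ n ∈ s, conj (v m) * ρ m n * v n) ∧
    HasSum (fun n => ρ n n) 1

/-- Wigner-positive states -/
def Dplus : Set (ℕ → ℕ → ℂ) := {ρ | IsState ρ ∧ ∀ x p, 0 ≤ Wig ρ x p}

/-- the generator `a† b - a b†` on two-mode Fock coefficients -/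
noncomputable def G (v : ℕ × ℕ → ℂ) : ℕ × ℕ → ℂ := fun i =>
  (√(i.1 : ℝ) * √(i.2 + 1 : ℝ) : ℝ) * v (i.1 - 1, i.2 + 1)
    - (√(i.1 + 1 : ℝ) * √(i.2 : ℝ) : ℝ) * v (i.1 + 1, i.2 - 1)

/-- the balanced beam splitter `exp (π/4 G)` on vectors with finitely many photons -/
noncomputable def U (v : ℕ × ℕ → ℂ) : ℕ × ℕ → ℂ := fun i =>
  ∑' k : ℕ, (π / 4 : ℂ) ^ k / k.factorial * G^[k] v i

/-- the beam-splitter state: partial trace over the second mode -/
noncomputable def sigma (ψ φ : ℕ → ℂ) : ℕ → ℕ → ℂ := fun m n =>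
  ∑' k, U (fun i => ψ i.1 * φ i.2) (m, k) * conj (U (fun i => ψ i.1 * φ i.2) (n, k))

noncomputable def J (p : ℝ) (k : ℕ) (y : ℝ) : ℂ := (y : ℂ) ^ k * cexp (-y ^ 2 - 2 * I * p * y)

lemma J_int (p : ℝ) (k : ℕ) : Integrable (J p k) := by
  have h := (integrable_rpow_mul_exp_neg_mul_sq (b := 1) one_pos (s := k)
    (by have : (0 : ℝ) ≤ k := Nat.cast_nonneg k; linarith)).norm
  refine h.mono' (by unfold J; fun_prop) (Filter.Eventually.of_forall fun y => le_of_eq ?_)
  unfold J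
  rw [norm_mul, norm_mul, Complex.norm_exp, Real.rpow_natCast]
  simp [← Complex.ofReal_pow]

lemma J_rec (p : ℝ) (k : ℕ) :
    2 * ∫ y, J p (k + 1) y = k * (∫ y, J p (k - 1) y) - 2 * I * p * ∫ y, J p k y := by
  have h := integral_eq_zero_of_hasDerivAt_of_integrable (f := J p k)
    (f' := fun y => k * J p (k - 1) y - 2 * J p (k + 1) y - 2 * I * p * J p k y) (fun y => ?_)
    ((((J_int p _).const_mul _).sub ((J_int p _).const_mul _)).sub ((J_int p _).const_mul _))
    (J_int p k)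
  · rw [integral_sub (by exact ((J_int p _).const_mul _).sub ((J_int p _).const_mul _))
      ((J_int p _).const_mul _), integral_sub ((J_int p _).const_mul _) ((J_int p _).const_mul _),
      integral_const_mul, integral_const_mul, integral_const_mul] at h
    linear_combination -h
  · have h1 : HasDerivAt (fun z : ℂ => z ^ k * cexp (-z ^ 2 - 2 * I * p * z)) _ (y : ℂ) :=
      (hasDerivAt_pow k (y : ℂ)).mul
        (((hasDerivAt_pow 2 (y : ℂ)).neg.sub ((hasDerivAt_id (y : ℂ)).const_mul (2 * I * p))).cexp)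
    refine h1.comp_ofReal.congr_deriv ?_
    simp [J]; ring

lemma J_zero (p : ℝ) : ∫ y, J p 0 y = (√π : ℝ) * cexp (-p ^ 2) := by
  have h := integral_cexp_quadratic (b := -1) (by simp) (-2 * I * p) 0
  have e : ∀ y : ℝ, J p 0 y = cexp (-1 * y ^ 2 + -2 * I * p * y + 0) := fun y => by
    simp only [J, pow_zero, one_mul]; congr 1; ring
  simp only [e, h]
  congr 1
  · rw [Real.sqrt_eq_rpow, Complex.ofReal_cpow Real.pi_pos.le]; simp
  · congr 1; ring_nf; simp

lemma J_poly (p : ℝ) (a0 a1 a2 a3 a4 : ℂ) :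
    ∫ y, (a0 * J p 0 y + a1 * J p 1 y + a2 * J p 2 y + a3 * J p 3 y + a4 * J p 4 y) =
      (√π : ℝ) * cexp (-p ^ 2) * (a0 + a1 * (-I * p) + a2 * (1 / 2 - p ^ 2)
        + a3 * (I * p ^ 3 - 3 / 2 * I * p) + a4 * (3 / 4 - 3 * p ^ 2 + p ^ 4)) := by
  have i := fun (a : ℂ) k => (J_int p k).const_mul a
  rw [integral_add (by exact (((i _ _).add (i _ _)).add (i _ _)).add (i _ _)) (i _ _),
    integral_add (by exact ((i _ _).add (i _ _)).add (i _ _)) (i _ _),
    integral_add (by exact (i _ _).add (i _ _)) (i _ _), integral_add (i _ _) (i _ _)]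
  simp only [integral_const_mul]
  have h0 := J_zero p
  have h1 := J_rec p 0
  have h2 := J_rec p 1
  have h3 := J_rec p 2
  have h4 := J_rec p 3
  norm_num at h1 h2 h3 h4
  set E := (√π : ℝ) * cexp (-p ^ 2)
  have e1 : ∫ y, J p 1 y = E * (-I * p) := by rw [h0] at h1; linear_combination h1 / 2
  have e2 : ∫ y, J p 2 y = E * (1 / 2 - p ^ 2) := by
    rw [h0, e1] at h2; linear_combination h2 / 2 + E * p ^ 2 * I_sq
  have e3 : ∫ y, J p 3 y = E * (I * p ^ 3 - 3 / 2 * I * p) := by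
    rw [e2, e1] at h3; linear_combination h3 / 2
  have e4 : ∫ y, J p 4 y = E * (3 / 4 - 3 * p ^ 2 + p ^ 4) := by
    rw [e2, e3] at h4; linear_combination h4 / 2 + E * (3 / 2 * p ^ 2 - p ^ 4) * I_sq
  rw [h0, e1, e2, e3, e4]; ring

lemma W_of (m n : ℕ) (x p : ℝ) (a0 a1 a2 a3 a4 : ℝ)
    (h : ∀ y, aeval (√2 * (x + y)) (hermite m) * aeval (√2 * (x - y)) (hermite n)
      = √(m.factorial : ℝ) * √(n.factorial : ℝ) * (a0 + a1 * y + a2 * y ^ 2 + a3 * y ^ 3 + a4 * y ^ 4)) :
    Wmn m n x p = (Real.exp (-x ^ 2 - p ^ 2) / π : ℝ) * (a0 + a1 * (-I * p) + a2 * (1 / 2 - p ^ 2)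
        + a3 * (I * p ^ 3 - 3 / 2 * I * p) + a4 * (3 / 4 - 3 * p ^ 2 + p ^ 4)) := by
  have s0 : 0 < √π := Real.sqrt_pos.2 Real.pi_pos
  have e : ∀ y, hf m (x + y) * hf n (x - y) = Real.exp (-x ^ 2) / √π * Real.exp (-y ^ 2) *
      (a0 + a1 * y + a2 * y ^ 2 + a3 * y ^ 3 + a4 * y ^ 4) := by
    intro y
    have e1 : Real.exp (-(x + y) ^ 2 / 2) * Real.exp (-(x - y) ^ 2 / 2)
        = Real.exp (-x ^ 2) * Real.exp (-y ^ 2) := by
      rw [← Real.exp_add, ← Real.exp_add]; congr 1; ring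
    have e2 : √(√π) * √(√π) = √π := Real.mul_self_sqrt s0.le
    have m0 : 0 < √(m.factorial : ℝ) := Real.sqrt_pos.2 (by positivity)
    have n0 : 0 < √(n.factorial : ℝ) := Real.sqrt_pos.2 (by positivity)
    unfold hf
    rw [div_mul_div_comm, mul_mul_mul_comm, h, e1, mul_mul_mul_comm √(m.factorial : ℝ), e2]
    field_simp
  have e' : ∀ y : ℝ, ((hf m (x + y) * hf n (x - y) : ℝ) : ℂ) * cexp (-2 * I * p * y) =
      (Real.exp (-x ^ 2) / √π : ℝ) *
        (a0 * J p 0 y + a1 * J p 1 y + a2 * J p 2 y + a3 * J p 3 y + a4 * J p 4 y) := by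
    intro y
    rw [e]; unfold J
    rw [sub_eq_add_neg, Complex.exp_add, show -2 * I * p * y = -(2 * I * p * y) by ring]
    push_cast; ring
  unfold Wmn
  simp only [e']
  rw [integral_const_mul, J_poly, sub_eq_add_neg (-x ^ 2), Real.exp_add]
  have : ((√π : ℝ) : ℂ) ≠ 0 := by exact_mod_cast s0.ne'
  push_cast
  field_simp

lemma her2 : hermite 2 = X ^ 2 - 1 := by
  rw [hermite_succ, hermite_one]; simp [sq]

lemma s2 : √2 * √2 = 2 := Real.mul_self_sqrt (by norm_num)

noncomputable def M (a b c d : ℝ) : ℕ → ℕ → ℂ := fun m n =>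
  if m = 0 ∧ n = 0 then a else if m = 1 ∧ n = 1 then b else if m = 2 ∧ n = 2 then c
  else if m = 0 ∧ n = 2 then (√2 * d : ℝ) else if m = 2 ∧ n = 0 then (√2 * d : ℝ) else 0

lemma M_zero (a b c d : ℝ) (m n : ℕ) (h : m ∉ range 3 ∨ n ∉ range 3) : M a b c d m n = 0 := by
  simp only [mem_range] at h
  unfold M
  rw [if_neg (by omega), if_neg (by omega), if_neg (by omega), if_neg (by omega), if_neg (by omega)]

lemma Wig_M (a b c d x p : ℝ) : Wig (M a b c d) x p = (Real.exp (-x ^ 2 - p ^ 2) / π *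
    (a + b * (2 * (x ^ 2 + p ^ 2) - 1) + c * (2 * (x ^ 2 + p ^ 2) ^ 2 - 4 * (x ^ 2 + p ^ 2) + 1)
      + 4 * d * (x ^ 2 - p ^ 2)) : ℝ) := by
  have w00 := W_of 0 0 x p 1 0 0 0 0 (fun y => by simp)
  have w11 := W_of 1 1 x p (2 * x ^ 2) 0 (-2) 0 0 (fun y => by
    simp [hermite_one]; linear_combination (x ^ 2 - y ^ 2) * s2)
  have w22 := W_of 2 2 x p ((2 * x ^ 2 - 1) ^ 2 / 2) 0 (-4 * x ^ 2 - 2) 0 2 (fun y => by
    simp [her2, s2]; rw [mul_mul_mul_comm √2 (x + y), mul_mul_mul_comm √2 (x - y), s2]; ring)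
  have w02 := W_of 0 2 x p (√2 * (x ^ 2 - 1 / 2)) (-2 * √2 * x) √2 0 0 (fun y => by
    simp [her2]; linear_combination (1 / 2) * s2)
  have w20 := W_of 2 0 x p (√2 * (x ^ 2 - 1 / 2)) (2 * √2 * x) √2 0 0 (fun y => by
    simp [her2]; linear_combination (1 / 2) * s2)
  have c2 : ((√2 : ℝ) : ℂ) * (√2 : ℝ) = 2 := by exact_mod_cast s2
  unfold Wig
  rw [tsum_eq_sum (s := range 3) fun m hm => by simp [M_zero _ _ _ _ m _ (Or.inl hm)]]
  rw [sum_congr rfl fun m _ => tsum_eq_sum (s := range 3) fun n hn => by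
    rw [M_zero _ _ _ _ m n (Or.inr hn), zero_mul]]
  simp only [sum_range_succ, range_zero, sum_empty, M]
  norm_num
  rw [w00, w11, w22, w02, w20]
  push_cast
  linear_combination (cexp (-x ^ 2 - p ^ 2) / π * 2 * d * (x ^ 2 - p ^ 2)) * c2

lemma M_state (a b c d : ℝ) (ha : 0 < a) (hb : 0 ≤ b) (h : 2 * d ^ 2 ≤ a * c) (h1 : a + b + c = 1) :
    IsState (M a b c d) := by
  constructor
  · intro s v
    let w : ℕ → ℂ := fun m => if m ∈ s then v m else 0
    have e : ∑ m ∈ s, ∑ n ∈ s, conj (v m) * M a b c d m n * v n =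
        ∑ m ∈ range 3, ∑ n ∈ range 3, conj (w m) * M a b c d m n * w n := by
      rw [← sum_product', ← sum_product']
      refine (sum_subset_zero_on_sdiff (s₂ := (s ∪ range 3) ×ˢ (s ∪ range 3))
        (g := fun i => conj (w i.1) * M a b c d i.1 i.2 * w i.2) (product_subset_product
          subset_union_left subset_union_left) (fun i hi => ?_) (fun i hi => ?_)).trans
        (sum_subset (product_subset_product subset_union_right subset_union_right)
          fun i _ hi => ?_).symm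
      · have := (mem_sdiff.1 hi).2
        rw [mem_product, not_and_or] at this
        rcases this with k | k <;> simp [w, k]
      · rw [mem_product] at hi; simp [w, hi.1, hi.2]
      · rw [mem_product, not_and_or] at hi; rw [M_zero _ _ _ _ _ _ hi]; simp
    rw [e]
    simp only [sum_range_succ, range_zero, sum_empty, M]
    norm_num
    generalize w 0 = u0
    generalize w 1 = u1
    generalize w 2 = u2
    have k : ∀ r t : ℝ, 0 ≤ a * r ^ 2 + 2 * (√2 * d) * r * t + c * t ^ 2 := by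
      intro r t
      have : 0 ≤ a * (a * r ^ 2 + 2 * (√2 * d) * r * t + c * t ^ 2) := by
        have e : a * (a * r ^ 2 + 2 * (√2 * d) * r * t + c * t ^ 2) =
            (a * r + √2 * d * t) ^ 2 + (a * c - 2 * d ^ 2) * t ^ 2 := by
          linear_combination (-d ^ 2 * t ^ 2) * s2
        rw [e]; have := sub_nonneg.2 h; positivity
      exact nonneg_of_mul_nonneg_right this ha |> fun h => by nlinarith
    rw [Complex.le_def]
    constructor
    · simp
      nlinarith [k u0.re u2.re, k u0.im u2.im, mul_nonneg hb (sq_nonneg u1.re),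
        mul_nonneg hb (sq_nonneg u1.im)]
    · simp; ring
  · have := hasSum_sum_of_ne_finset_zero (f := fun n => M a b c d n n) (s := range 3)
      (L := .unconditional _) fun n hn => M_zero _ _ _ _ _ _ (Or.inl hn)
    convert this using 1
    simp [sum_range_succ, M]
    exact_mod_cast h1.symm

noncomputable def vec (a b c d : ℂ) : ℕ × ℕ → ℂ := fun i =>
  if i = (0, 0) then a else if i = (2, 0) then b else if i = (1, 1) then c
  else if i = (0, 2) then d else 0

lemma G_vec (a b c d : ℂ) :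
    G (vec a b c d) = vec 0 (√2 * c) (√2 * (d - b)) (-√2 * c) := by
  funext ⟨j, k⟩
  rcases j with _ | _ | _ | j <;> rcases k with _ | _ | _ | k <;> simp [G, vec] <;>
    norm_num <;> ring

lemma G_iter (a b : ℂ) (n : ℕ) : G^[n] (vec a b 0 0) = vec (0 ^ n * a)
    (b * (0 ^ n / 2 + ((2 * I) ^ n + (-(2 * I)) ^ n) / 4))
    (b * I * √2 * ((2 * I) ^ n - (-(2 * I)) ^ n) / 4)
    (b * (0 ^ n / 2 - ((2 * I) ^ n + (-(2 * I)) ^ n) / 4)) := by
  have c2 : ((√2 : ℝ) : ℂ) * (√2 : ℝ) = 2 := by exact_mod_cast s2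
  induction n with
  | zero => rw [Function.iterate_zero_apply]; congr 1 <;> ring
  | succ n ih =>
    rw [Function.iterate_succ_apply', ih, G_vec]
    congr 1
    · ring
    · linear_combination (b * I * ((2 * I) ^ n - (-(2 * I)) ^ n) / 4) * c2
    · linear_combination (-b * √2 * ((2 * I) ^ n + (-(2 * I)) ^ n) / 2) * I_sq
    · linear_combination (-b * I * ((2 * I) ^ n - (-(2 * I)) ^ n) / 4) * c2

lemma hs {f g : ℕ → ℂ} {a b : ℂ} (h : HasSum f a) (e1 : ∀ k, g k = f k) (e2 : b = a) :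
    HasSum g b := by rw [funext e1, e2]; exact h

lemma U_vec (a b : ℂ) : U (vec a b 0 0) = vec a (b / 2) (-b * √2 / 2) (b / 2) := by
  have h : ∀ z : ℂ, HasSum (fun k : ℕ => (π / 4 : ℂ) ^ k / k.factorial * z ^ k)
      (cexp (π / 4 * z)) := by
    intro z
    rw [Complex.exp_eq_exp_ℂ]
    exact hs (NormedSpace.expSeries_div_hasSum_exp (π / 4 * z : ℂ))
      (fun k => by rw [mul_pow]; ring) rfl
  have h0 := h 0
  have h1 := h (2 * I)
  have h2 := h (-(2 * I))
  rw [mul_zero, Complex.exp_zero] at h0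
  rw [show (π / 4 * (2 * I) : ℂ) = π / 2 * I by ring, exp_pi_div_two_mul_I] at h1
  rw [show (π / 4 * (-(2 * I)) : ℂ) = -π / 2 * I by ring, exp_neg_pi_div_two_mul_I] at h2
  funext i
  refine HasSum.tsum_eq ?_
  simp only [G_iter, vec]
  split_ifs
  · exact hs (h0.mul_right a) (fun k => by ring) (by ring)
  · exact hs (((h0.div_const 2).add ((h1.add h2).div_const 4)).mul_left b) (fun k => by ring)
      (by ring)
  · exact hs (((h1.sub h2).div_const 4).mul_left (b * I * √2)) (fun k => by ring)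
      (by linear_combination (-b * √2 / 2) * I_sq)
  · exact hs (((h0.div_const 2).sub ((h1.add h2).div_const 4)).mul_left b) (fun k => by ring)
      (by ring)
  · simpa using hasSum_zero

noncomputable def ψ0 : ℕ → ℂ := fun n => if n = 0 then 1 / 3 else if n = 2 then 2 * √2 / 3 else 0
noncomputable def φ0 : ℕ → ℂ := fun n => if n = 0 then 1 else 0

lemma sigma_eq : sigma ψ0 φ0 = M (1 / 3) (4 / 9) (2 / 9) (1 / 9) := by
  have c2 : ((√2 : ℝ) : ℂ) * (√2 : ℝ) = 2 := by exact_mod_cast s2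
  have e : (fun i : ℕ × ℕ => ψ0 i.1 * φ0 i.2) = vec (1 / 3) (2 * √2 / 3) 0 0 := by
    funext ⟨j, k⟩
    rcases j with _ | _ | _ | j <;> rcases k with _ | _ | _ | k <;> simp [ψ0, φ0, vec]
  funext m n
  unfold sigma
  rw [e, U_vec, tsum_eq_sum (s := range 3) fun k hk => by
    obtain ⟨k, rfl⟩ : ∃ j, k = j + 3 := ⟨k - 3, by simp at hk; omega⟩
    simp [vec]]
  rcases m with _ | _ | _ | m <;> rcases n with _ | _ | _ | n <;>
    simp [sum_range_succ, vec, M, map_ofNat]
  · linear_combination c2 / 9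
  · ring
  · linear_combination (√2 * √2 + 2) / 9 * c2
  · ring
  · linear_combination c2 / 9

theorem result : ∃ ψ φ : ℕ → ℂ, ψ.support.Finite ∧ φ.support.Finite ∧
    HasSum (fun n => ‖ψ n‖ ^ 2) 1 ∧ HasSum (fun n => ‖φ n‖ ^ 2) 1 ∧
    sigma ψ φ ∈ Dplus ∧ sigma ψ φ ∉ Dplus.extremePoints ℝ := by
  have mem : ∀ e : ℝ, |e| ≤ 1 / 5 → M ((1 - e / 2) / 3 + e / 4) ((1 - e / 2) * 4 / 9 + e / 4)
      ((1 - e / 2) * 2 / 9) ((1 - e / 2) / 9 + e / 8) ∈ Dplus := by
    intro e he
    obtain ⟨e1, e2⟩ := abs_le.1 he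
    refine ⟨M_state _ _ _ _ (by linarith) (by linarith) (by nlinarith) (by ring), fun x p => ?_⟩
    rw [Wig_M, Complex.zero_le_real]
    refine mul_nonneg (by positivity) ?_
    have k1 : 0 ≤ (1 - e / 2) * (1 - 2 * (x ^ 2 + p ^ 2)) ^ 2 :=
      mul_nonneg (by linarith) (sq_nonneg _)
    have k2 : 0 ≤ ((1 - e / 2) * 8 / 9 + e) * x ^ 2 := mul_nonneg (by linarith) (sq_nonneg _)
    linear_combination k1 / 9 + k2
  have z : ∀ n, n ∉ range 3 → ψ0 n = 0 ∧ φ0 n = 0 := fun n hn => by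
    simp only [mem_range] at hn
    simp only [ψ0, φ0]
    rw [if_neg (by omega), if_neg (by omega), if_neg (by omega)]; simp
  refine ⟨ψ0, φ0, (range 3).finite_toSet.subset fun n hn => ?_,
    (range 3).finite_toSet.subset fun n hn => ?_, ?_, ?_, ?_, fun h => ?_⟩
  · by_contra c; exact hn (z n c).1
  · by_contra c; exact hn (z n c).2
  · have := hasSum_sum_of_ne_finset_zero (f := fun n => ‖ψ0 n‖ ^ 2) (s := range 3)
      (L := .unconditional _) fun n hn => by simp [(z n hn).1]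
    convert this using 1
    simp [sum_range_succ, ψ0, div_pow, mul_pow]; norm_num
  · have := hasSum_sum_of_ne_finset_zero (f := fun n => ‖φ0 n‖ ^ 2) (s := range 3)
      (L := .unconditional _) fun n hn => by simp [(z n hn).2]
    convert this using 1
    simp [sum_range_succ, φ0]
  · rw [sigma_eq]
    convert mem 0 (by norm_num) using 2 <;> norm_num
  · have := (h.2 (mem (1 / 5) (by norm_num [abs_le])) (mem (-1 / 5) (by norm_num [abs_le]))
      ⟨1 / 2, 1 / 2, by norm_num, by norm_num, by norm_num, ?_⟩)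
    · have h2 := congrFun (congrFun this 2) 2
      rw [sigma_eq] at h2
      simp only [M] at h2
      norm_num at h2
    · rw [sigma_eq]
      funext m n
      simp only [M, Pi.add_apply, Pi.smul_apply, Complex.real_smul]
      split_ifs <;> push_cast <;> ring

end Pool.Agent.Results.MP_bdb089_mp.No
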